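import Mathlib

set_option autoImplicit false

namespace Pool.Agent.MP_de0ecf_co

variable {A : Type*}

/-- A braid move is available at the positions `i, i+1, i+2`. -/
def Avail (E : A → A → Prop) (f : ℕ → A) (i : ℕ) : Prop :=
  E (f i) (f (i + 1)) ∧ f (i + 2) = f i

/-- The result of the braid move at the positions `i, i+1, i+2`. -/
def flip3 (f : ℕ → A) (i : ℕ) : ℕ → A := fun j =>
  if j = i then f (i + 1) else if j = i + 1 then f i else if j = i + 2 then f (i + 1) else f j

lemma flip3_at0 (f : ℕ → A) (i : ℕ) : flip3 f i i = f (i + 1) := by simp [flip3]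

lemma flip3_at1 (f : ℕ → A) (i : ℕ) : flip3 f i (i + 1) = f i := by simp [flip3]

lemma flip3_at2 (f : ℕ → A) (i : ℕ) : flip3 f i (i + 2) = f (i + 1) := by simp [flip3]

lemma flip3_lt (f : ℕ → A) {i j : ℕ} (h : j < i) : flip3 f i j = f j := by
  unfold flip3
  rw [if_neg (by omega), if_neg (by omega), if_neg (by omega)]

lemma flip3_gt (f : ℕ → A) {i j : ℕ} (h : i + 2 < j) : flip3 f i j = f j := by
  unfold flip3
  rw [if_neg (by omega), if_neg (by omega), if_neg (by omega)]

/-- Perform the moves at the listed positions. -/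
def run : (ℕ → A) → List ℕ → (ℕ → A)
  | f, [] => f
  | f, k :: l => run (flip3 f k) l

/-- All the listed moves are available when they are performed. -/
def Ok (E : A → A → Prop) : (ℕ → A) → List ℕ → Prop
  | _, [] => True
  | f, k :: l => Avail E f k ∧ Ok E (flip3 f k) l

lemma run_append (f : ℕ → A) (l₁ l₂ : List ℕ) : run f (l₁ ++ l₂) = run (run f l₁) l₂ := by
  induction l₁ generalizing f with
  | nil => rfl
  | cons k l ih => exact ih (flip3 f k)

lemma ok_append (E : A → A → Prop) (f : ℕ → A) (l₁ l₂ : List ℕ) :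
    Ok E f (l₁ ++ l₂) ↔ Ok E f l₁ ∧ Ok E (run f l₁) l₂ := by
  induction l₁ generalizing f with
  | nil => simp [Ok, run]
  | cons k l ih =>
    simp only [List.cons_append, Ok, run, ih (flip3 f k)]
    tauto

/-- The hypotheses under which the combinatorics works: `C` is a class of words closed under and
connected by braid moves, all of them reduced, and the Coxeter graph is triangle free. -/
structure Cls (E : A → A → Prop) (C : Set (ℕ → A)) : Prop where
  symm : ∀ x y, E x y → E y x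
  irrefl : ∀ x, ¬ E x x
  tri : ∀ x y z, E x y → E y z → E x z → False
  closed : ∀ f ∈ C, ∀ i, Avail E f i → flip3 f i ∈ C
  conn : ∀ f ∈ C, ∀ g ∈ C, ∃ l, Ok E f l ∧ run f l = g
  r1 : ∀ f ∈ C, ∀ j x, f j = f (j + 1) → ¬ E (f j) x
  r2 : ∀ f ∈ C, ∀ j, E (f j) (f (j + 1)) → f (j + 2) = f j → f (j + 3) = f (j + 1) → False

section basic

variable {E : A → A → Prop} (hsymm : ∀ x y, E x y → E y x)

include hsymm in
lemma avail_flip {f : ℕ → A} {i : ℕ} (h : Avail E f i) : Avail E (flip3 f i) i := by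
  refine ⟨?_, ?_⟩
  · rw [flip3_at0, flip3_at1]
    exact hsymm _ _ h.1
  · rw [flip3_at2, flip3_at0]

lemma flip_flip {f : ℕ → A} {i : ℕ} (h : Avail E f i) : flip3 (flip3 f i) i = f := by
  funext j
  rcases lt_trichotomy j i with hj | hj | hj
  · rw [flip3_lt _ hj, flip3_lt _ hj]
  · subst hj; rw [flip3_at0, flip3_at1]
  · rcases Nat.lt_or_ge (i + 2) j with hj' | hj'
    · rw [flip3_gt _ hj', flip3_gt _ hj']
    · have : j = i + 1 ∨ j = i + 2 := by omega
      rcases this with rfl | rfl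
      · rw [flip3_at1, flip3_at0]
      · rw [flip3_at2, flip3_at1]; exact h.2.symm

include hsymm in
lemma ok_reverse {f : ℕ → A} {l : List ℕ} (h : Ok E f l) :
    Ok E (run f l) l.reverse ∧ run (run f l) l.reverse = f := by
  induction l generalizing f with
  | nil => exact ⟨trivial, rfl⟩
  | cons k l ih =>
    obtain ⟨h1, h2⟩ := h
    obtain ⟨h3, h4⟩ := ih h2
    rw [List.reverse_cons]
    show Ok E (run (flip3 f k) l) (l.reverse ++ [k]) ∧
      run (run (flip3 f k) l) (l.reverse ++ [k]) = f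
    rw [ok_append, run_append, h4]
    exact ⟨⟨h3, avail_flip hsymm h1, trivial⟩, flip_flip h1⟩

/-- Moves at positions at least `p` only depend on and only change the letters from `p` on. -/
lemma run_congr {p : ℕ} {f f' : ℕ → A} (hff : ∀ j, p ≤ j → f j = f' j) {l : List ℕ}
    (hl : ∀ k ∈ l, p ≤ k) (h : Ok E f' l) :
    Ok E f l ∧ (∀ j, p ≤ j → run f l j = run f' l j) ∧ (∀ j, j < p → run f l j = f j) := by
  induction l generalizing f f' with
  | nil => exact ⟨trivial, hff, fun _ _ => rfl⟩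
  | cons k l ih =>
    obtain ⟨⟨h1, h1'⟩, h2⟩ := h
    have hk : p ≤ k := hl k (by simp)
    have hl' : ∀ k ∈ l, p ≤ k := fun k hk => hl k (by simp [hk])
    have hff' : ∀ j, p ≤ j → flip3 f k j = flip3 f' k j := by
      intro j hj
      unfold flip3
      rw [hff j hj, hff k hk, hff (k + 1) (by omega)]
    obtain ⟨i1, i2, i3⟩ := ih hff' hl' h2
    refine ⟨⟨⟨?_, ?_⟩, i1⟩, i2, ?_⟩
    · rw [hff k hk, hff (k + 1) (by omega)]; exact h1
    · rw [hff k hk, hff (k + 2) (by omega)]; exact h1'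
    · intro j hj
      show run (flip3 f k) l j = f j
      rw [i3 j hj, flip3_lt _ (by omega)]

/-- If all moves avoid the positions `p-1` and `p-2`.. crossing `p`, one can perform only those
to the right of `p`. -/
lemma run_filter {p : ℕ} {f : ℕ → A} {l : List ℕ} (hl : ∀ k ∈ l, k + 2 < p ∨ p ≤ k)
    (h : Ok E f l) :
    ∃ l' : List ℕ, Ok E f l' ∧ (∀ j, p ≤ j → run f l' j = run f l j) ∧
      (∀ j, j < p → run f l' j = f j) ∧ (∀ k ∈ l', p ≤ k) := by
  induction l generalizing f with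
  | nil => exact ⟨[], trivial, fun _ _ => rfl, fun _ _ => rfl, by simp⟩
  | cons k l ih =>
    obtain ⟨h1, h2⟩ := h
    have hl' : ∀ k ∈ l, k + 2 < p ∨ p ≤ k := fun k hk => hl k (by simp [hk])
    obtain ⟨l', i1, i2, i3, i4⟩ := ih hl' h2
    rcases hl k (by simp) with hk | hk
    · have hff : ∀ j, p ≤ j → f j = flip3 f k j := fun j hj => (flip3_gt _ (by omega)).symm
      obtain ⟨j1, j2, j3⟩ := run_congr (E := E) hff i4 i1
      exact ⟨l', j1, fun j hj => by rw [j2 j hj, i2 j hj]; rfl, j3, i4⟩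
    · refine ⟨k :: l', ⟨h1, i1⟩, i2, ?_, ?_⟩
      · intro j hj
        show run (flip3 f k) l' j = f j
        rw [i3 j hj, flip3_lt _ (by omega)]
      · intro k' hk'
        rcases List.mem_cons.1 hk' with rfl | hk'
        · exact hk
        · exact i4 k' hk'

lemma run_untouched {f : ℕ → A} {l : List ℕ} {j : ℕ} (hl : ∀ k ∈ l, k + 2 < j ∨ j < k) :
    run f l j = f j := by
  induction l generalizing f with
  | nil => rfl
  | cons k l ih =>
    show run (flip3 f k) l j = f j
    rw [ih (fun k hk => hl k (by simp [hk]))]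
    rcases hl k (by simp) with hk | hk
    · exact flip3_gt _ hk
    · exact flip3_lt _ hk

end basic

section main

variable {E : A → A → Prop} {C : Set (ℕ → A)} (H : Cls E C)

include H

lemma run_mem {f : ℕ → A} (hf : f ∈ C) {l : List ℕ} (h : Ok E f l) : run f l ∈ C := by
  induction l generalizing f with
  | nil => exact hf
  | cons k l ih => exact ih (H.closed f hf k h.1) h.2

/-- First half of the no-adjacent-centres lemma, for a given length. -/
lemma noadj_aux (m : ℕ)
    (ih : ∀ m' < m, ∀ f ∈ C, ∀ l : List ℕ, l.length = m' → Ok E f l → ∀ i,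
      ¬ (Avail E f i ∧ Avail E (run f l) (i + 1)) ∧ ¬ (Avail E f (i + 1) ∧ Avail E (run f l) i)) :
    ∀ f ∈ C, ∀ l : List ℕ, l.length = m → Ok E f l → ∀ i,
      ¬ (Avail E f i ∧ Avail E (run f l) (i + 1)) := by
  rintro f hf l hlm hl i ⟨ha, hb⟩
  have hmem : ∀ k ∈ l, k + 2 < i + 1 ∨ i + 3 ≤ k := by
    intro k hk
    obtain ⟨l₁, l₂, rfl⟩ := List.append_of_mem hk
    rw [ok_append] at hl
    obtain ⟨hl1, hk1, hl2⟩ := hl
    simp only [List.length_append, List.length_cons] at hlm
    have hf1 : run f l₁ ∈ C := run_mem H hf hl1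
    have hf2 : flip3 (run f l₁) k ∈ C := H.closed _ hf1 k hk1
    have hk2 : Avail E (flip3 (run f l₁) k) k := avail_flip H.symm hk1
    have hrun : run f (l₁ ++ k :: l₂) = run (flip3 (run f l₁) k) l₂ := by
      rw [run_append]; rfl
    rw [hrun] at hb
    have e1 : k ≠ i + 1 := by
      rintro rfl
      exact (ih l₁.length (by omega) f hf l₁ rfl hl1 i).1 ⟨ha, hk1⟩
    have e2 : k + 1 ≠ i := by
      rintro rfl
      exact (ih l₁.length (by omega) f hf l₁ rfl hl1 k).2 ⟨ha, hk1⟩
    have e3 : k ≠ i + 2 := by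
      rintro rfl
      exact (ih l₂.length (by omega) _ hf2 l₂ rfl hl2 (i + 1)).2 ⟨hk2, hb⟩
    have e4 : k ≠ i := by
      rintro rfl
      exact (ih l₂.length (by omega) _ hf2 l₂ rfl hl2 k).1 ⟨hk2, hb⟩
    omega
  obtain ⟨l', h1, h2, h3, -⟩ := run_filter (E := E) (p := i + 3) (f := f) (l := l)
    (fun k hk => by have := hmem k hk; omega) hl
  have u1 : run f l (i + 1) = f (i + 1) :=
    run_untouched (fun k hk => by have := hmem k hk; omega)
  have hC : run f l' ∈ C := run_mem H hf h1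
  refine H.r2 _ hC i ?_ ?_ ?_
  · rw [h3 i (by omega), h3 (i + 1) (by omega)]; exact ha.1
  · rw [h3 i (by omega), h3 (i + 2) (by omega)]; exact ha.2
  · rw [h3 (i + 1) (by omega), h2 (i + 3) (by omega), ← u1]
    exact hb.2

lemma noadj_all (m : ℕ) : ∀ f ∈ C, ∀ l : List ℕ, l.length = m → Ok E f l → ∀ i,
      ¬ (Avail E f i ∧ Avail E (run f l) (i + 1)) ∧
      ¬ (Avail E f (i + 1) ∧ Avail E (run f l) i) := by
  induction m using Nat.strong_induction_on with
  | _ m ih =>
    intro f hf l hlm hl i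
    refine ⟨noadj_aux H m ih f hf l hlm hl i, ?_⟩
    rintro ⟨ha, hb⟩
    obtain ⟨h1, h2⟩ := ok_reverse H.symm hl
    refine noadj_aux H m ih (run f l) (run_mem H hf hl) l.reverse (by simpa using hlm) h1 i ⟨hb, ?_⟩
    rw [h2]; exact ha

/-- The positions of the moves available somewhere in the class. -/
def SS (E : A → A → Prop) (C : Set (ℕ → A)) : Set ℕ := {i | ∃ f ∈ C, Avail E f i}

/-- Two moves of the class never overlap in two positions. -/
lemma noadj {i : ℕ} (h1 : i ∈ SS E C) (h2 : i + 1 ∈ SS E C) : False := by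
  obtain ⟨f, hf, hfa⟩ := h1
  obtain ⟨g, hg, hga⟩ := h2
  obtain ⟨l, hl, rfl⟩ := H.conn f hf g hg
  exact (noadj_all H l.length f hf l rfl hl i).1 ⟨hfa, hga⟩

/-- The local shape of a word of the class around a centre `i + 1`. -/
def Inv (E : A → A → Prop) (C : Set (ℕ → A)) (i : ℕ) (s t : A) (g : ℕ → A) : Prop :=
  ∃ x y, ((x = s ∧ y = t) ∨ (x = t ∧ y = s)) ∧ g (i + 1) = x ∧
    (g i = y ∨ (∃ i', i = i' + 2 ∧ i' ∈ SS E C ∧ g (i' + 1) = y ∧ E y (g i))) ∧
    (g (i + 2) = y ∨ (i + 2 ∈ SS E C ∧ g (i + 3) = y ∧ E y (g (i + 2))))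

omit H in
lemma inv_init {g : ℕ → A} {i : ℕ} (h : Avail E g i) : Inv E C i (g i) (g (i + 1)) g :=
  ⟨g (i + 1), g i, Or.inr ⟨rfl, rfl⟩, rfl, Or.inl rfl, Or.inl h.2⟩

lemma inv_step {g : ℕ → A} (hg : g ∈ C) {i k : ℕ} (hi : i ∈ SS E C) {s t : A} (hst : E s t)
    (hI : Inv E C i s t g) (hk : Avail E g k) : Inv E C i s t (flip3 g k) := by
  have hkS : k ∈ SS E C := ⟨g, hg, hk⟩
  have k1 : k ≠ i + 1 := by rintro rfl; exact noadj H hi hkS
  have k2 : k + 1 ≠ i := by rintro rfl; exact noadj H hkS hi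
  obtain ⟨x, y, hxy, hx, hL, hR⟩ := hI
  have hExy : E x y := by
    rcases hxy with ⟨rfl, rfl⟩ | ⟨rfl, rfl⟩
    · exact hst
    · exact H.symm _ _ hst
  rcases Nat.lt_trichotomy k i with hki | hki | hki
  · -- moves on the left
    have hx' : flip3 g k (i + 1) = x := by rw [flip3_gt _ (by omega)]; exact hx
    have hR' : (flip3 g k) (i + 2) = y ∨ (i + 2 ∈ SS E C ∧ (flip3 g k) (i + 3) = y ∧
        E y ((flip3 g k) (i + 2))) := by
      rw [flip3_gt _ (by omega), flip3_gt _ (by omega)]; exact hR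
    refine ⟨x, y, hxy, hx', ?_, hR'⟩
    rcases Nat.lt_or_ge (k + 2) i with hlt | hge
    · rcases hL with hL | ⟨i', rfl, hi', hL1, hL2⟩
      · left; rw [flip3_gt _ hlt]; exact hL
      · right
        have : k + 1 ≠ i' := by rintro rfl; exact noadj H hkS hi'
        refine ⟨i', rfl, hi', ?_, ?_⟩
        · rw [flip3_gt _ (by omega)]; exact hL1
        · rw [flip3_gt _ (by omega)]; exact hL2
    · have hk2 : i = k + 2 := by omega
      subst hk2
      rcases hL with hL | ⟨i', hi'', hi', hL1, hL2⟩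
      · right
        refine ⟨k, rfl, hkS, ?_, ?_⟩
        · rw [flip3_at1, ← hk.2]; exact hL
        · rw [flip3_at2, ← hL, hk.2]; exact hk.1
      · left
        have : i' = k := by omega
        subst this
        rw [flip3_at2]; exact hL1
  · -- the move at `i`
    subst hki
    obtain ⟨ha, hb⟩ := hk
    have hLy : g k = y := by
      rcases hL with hL | ⟨i', _, _, _, hL2⟩
      · exact hL
      · exfalso
        rw [hx] at ha
        exact H.tri x y (g k) hExy hL2 (H.symm _ _ ha)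
    refine ⟨y, x, ?_, ?_, Or.inl ?_, Or.inl ?_⟩
    · rcases hxy with ⟨rfl, rfl⟩ | ⟨rfl, rfl⟩
      · exact Or.inr ⟨rfl, rfl⟩
      · exact Or.inl ⟨rfl, rfl⟩
    · rw [flip3_at1]; exact hLy
    · rw [flip3_at0]; exact hx
    · rw [flip3_at2]; exact hx
  · -- moves on the right
    have hx' : flip3 g k (i + 1) = x := by rw [flip3_lt _ (by omega)]; exact hx
    have hL' : (flip3 g k) i = y ∨ (∃ i', i = i' + 2 ∧ i' ∈ SS E C ∧ (flip3 g k) (i' + 1) = y ∧
        E y ((flip3 g k) i)) := by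
      rcases hL with hL | ⟨i', rfl, hi', hL1, hL2⟩
      · left; rw [flip3_lt _ hki]; exact hL
      · right
        refine ⟨i', rfl, hi', ?_, ?_⟩
        · rw [flip3_lt _ (by omega)]; exact hL1
        · rw [flip3_lt _ hki]; exact hL2
    refine ⟨x, y, hxy, hx', hL', ?_⟩
    rcases Nat.lt_or_ge (i + 2) k with hlt | hge
    · rcases hR with hR | ⟨hi2, hR1, hR2⟩
      · left; rw [flip3_lt _ hlt]; exact hR
      · right
        have : k ≠ i + 2 + 1 := by rintro rfl; exact noadj H hi2 hkS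
        refine ⟨hi2, ?_, ?_⟩
        · rw [flip3_lt _ (by omega)]; exact hR1
        · rw [flip3_lt _ hlt]; exact hR2
    · have hk2 : k = i + 2 := by omega
      subst hk2
      rcases hR with hR | ⟨hi2, hR1, hR2⟩
      · right
        refine ⟨hkS, ?_, ?_⟩
        · rw [flip3_at1]; exact hR
        · rw [flip3_at0, ← hR]; exact hk.1
      · left
        rw [flip3_at0]; exact hR1

lemma inv_run {i : ℕ} (hi : i ∈ SS E C) {s t : A} (hst : E s t) {g : ℕ → A} (hg : g ∈ C)
    {l : List ℕ} (hl : Ok E g l) (hI : Inv E C i s t g) : Inv E C i s t (run g l) := by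
  induction l generalizing g with
  | nil => exact hI
  | cons k l ih =>
    exact ih (H.closed g hg k hl.1) hl.2 (inv_step H hg hi hst hI hl.1)

lemma exists_pair {i : ℕ} (hi : i ∈ SS E C) :
    ∃ s t : A, E s t ∧ ∀ g ∈ C, Inv E C i s t g := by
  obtain ⟨f, hf, hfa⟩ := hi
  refine ⟨f i, f (i + 1), hfa.1, fun g hg => ?_⟩
  obtain ⟨l, hl, rfl⟩ := H.conn f hf g hg
  exact inv_run H ⟨f, hf, hfa⟩ hfa.1 hf hl (inv_init hfa)

end main

/-- Letters of the centres: a choice of the two letters `s i, t i` for each centre. -/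
structure Pairs (E : A → A → Prop) (C : Set (ℕ → A)) (s t : ℕ → A) : Prop where
  edge : ∀ i ∈ SS E C, E (s i) (t i)
  inv : ∀ i ∈ SS E C, ∀ g ∈ C, Inv E C i (s i) (t i) g

lemma exists_pairs {E : A → A → Prop} {C : Set (ℕ → A)} (H : Cls E C) (hne : C.Nonempty) :
    ∃ s t : ℕ → A, Pairs E C s t := by
  classical
  obtain ⟨f, hf⟩ := hne
  have : ∀ i, ∃ p : A × A, i ∈ SS E C → E p.1 p.2 ∧ ∀ g ∈ C, Inv E C i p.1 p.2 g := by
    intro i
    by_cases hi : i ∈ SS E C
    · obtain ⟨s, t, h1, h2⟩ := exists_pair H hi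
      exact ⟨(s, t), fun _ => ⟨h1, h2⟩⟩
    · exact ⟨(f 0, f 0), fun h => absurd h hi⟩
  choose p hp using this
  exact ⟨fun i => (p i).1, fun i => (p i).2, fun i hi => (hp i hi).1, fun i hi => (hp i hi).2⟩

section structure_

variable {E : A → A → Prop} {C : Set (ℕ → A)} {s t : ℕ → A}

/-- The other letter of the pair of the centre `i`. -/
noncomputable def oth (s t : ℕ → A) (i : ℕ) (x : A) : A :=
  haveI := Classical.dec (x = s i)
  if x = s i then t i else s i

lemma oth_s (i : ℕ) : oth s t i (s i) = t i := by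
  unfold oth; simp

variable (H : Cls E C) (P : Pairs E C s t)

include H P

lemma oth_t {i : ℕ} (hi : i ∈ SS E C) : oth s t i (t i) = s i := by
  unfold oth
  rw [if_neg]
  intro h
  exact H.irrefl (s i) (by simpa [h] using P.edge i hi)

lemma oth_ne {i : ℕ} (hi : i ∈ SS E C) {x : A} (hx : x = s i ∨ x = t i) :
    oth s t i x ≠ x := by
  have hst : s i ≠ t i := by
    intro h
    exact H.irrefl (s i) (by simpa [← h] using P.edge i hi)
  rcases hx with rfl | rfl
  · rw [oth_s]; exact hst.symm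
  · rw [oth_t H P hi]; exact hst

lemma oth_mem {i : ℕ} (hi : i ∈ SS E C) {x : A} (hx : x = s i ∨ x = t i) :
    oth s t i x = s i ∨ oth s t i x = t i := by
  rcases hx with rfl | rfl
  · rw [oth_s]; exact Or.inr rfl
  · rw [oth_t H P hi]; exact Or.inl rfl

lemma oth_oth {i : ℕ} (hi : i ∈ SS E C) {x : A} (hx : x = s i ∨ x = t i) :
    oth s t i (oth s t i x) = x := by
  rcases hx with rfl | rfl
  · rw [oth_s, oth_t H P hi]
  · rw [oth_t H P hi, oth_s]

lemma oth_edge {i : ℕ} (hi : i ∈ SS E C) {x : A} (hx : x = s i ∨ x = t i) :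
    E x (oth s t i x) := by
  rcases hx with rfl | rfl
  · rw [oth_s]; exact P.edge i hi
  · rw [oth_t H P hi]; exact H.symm _ _ (P.edge i hi)

lemma eq_oth_of_ne {i : ℕ} (hi : i ∈ SS E C) {x z : A} (hx : x = s i ∨ x = t i)
    (hz : z = s i ∨ z = t i) (hne : x ≠ z) : z = oth s t i x := by
  rcases hx with rfl | rfl <;> rcases hz with rfl | rfl
  · exact absurd rfl hne
  · rw [oth_s]
  · rw [oth_t H P hi]
  · exact absurd rfl hne

omit H in
lemma center_mem {i : ℕ} (hi : i ∈ SS E C) {g : ℕ → A} (hg : g ∈ C) :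
    g (i + 1) = s i ∨ g (i + 1) = t i := by
  obtain ⟨x, y, hxy, hx, -, -⟩ := P.inv i hi g hg
  rcases hxy with ⟨rfl, rfl⟩ | ⟨rfl, rfl⟩
  · exact Or.inl hx
  · exact Or.inr hx

lemma inv_left {i : ℕ} (hi : i ∈ SS E C) {g : ℕ → A} (hg : g ∈ C) :
    g i = oth s t i (g (i + 1)) ∨ (∃ i', i = i' + 2 ∧ i' ∈ SS E C ∧
      g (i' + 1) = oth s t i (g (i + 1)) ∧ E (oth s t i (g (i + 1))) (g i)) := by
  obtain ⟨x, y, hxy, hx, hL, -⟩ := P.inv i hi g hg
  have hy : oth s t i (g (i + 1)) = y := by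
    rw [hx]
    rcases hxy with ⟨rfl, rfl⟩ | ⟨rfl, rfl⟩
    · exact oth_s i
    · exact oth_t H P hi
  rw [hy]; exact hL

lemma inv_right {i : ℕ} (hi : i ∈ SS E C) {g : ℕ → A} (hg : g ∈ C) :
    g (i + 2) = oth s t i (g (i + 1)) ∨ (i + 2 ∈ SS E C ∧
      g (i + 3) = oth s t i (g (i + 1)) ∧ E (oth s t i (g (i + 1))) (g (i + 2))) := by
  obtain ⟨x, y, hxy, hx, -, hR⟩ := P.inv i hi g hg
  have hy : oth s t i (g (i + 1)) = y := by
    rw [hx]
    rcases hxy with ⟨rfl, rfl⟩ | ⟨rfl, rfl⟩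
    · exact oth_s i
    · exact oth_t H P hi
  rw [hy]; exact hR

/-- The three possible shapes around two overlapping moves. With `x, x'` the centre letters and
`y, y'` the other letters of the two pairs. -/
lemma three {i : ℕ} (hi : i ∈ SS E C) (hi2 : i + 2 ∈ SS E C) {g : ℕ → A} (hg : g ∈ C) :
    (g (i + 2) = oth s t i (g (i + 1)) ∧ g (i + 2) = oth s t (i + 2) (g (i + 3)) ∧
      g (i + 1) ≠ g (i + 3)) ∨
    (g (i + 2) = oth s t i (g (i + 1)) ∧ g (i + 1) = oth s t (i + 2) (g (i + 3)) ∧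
      oth s t i (g (i + 1)) ≠ g (i + 3)) ∨
    (g (i + 2) = oth s t (i + 2) (g (i + 3)) ∧ g (i + 3) = oth s t i (g (i + 1)) ∧
      g (i + 1) ≠ oth s t (i + 2) (g (i + 3))) := by
  have hm := center_mem P hi hg
  have hm' : g (i + 3) = s (i + 2) ∨ g (i + 3) = t (i + 2) := center_mem P hi2 hg
  have hno : i + 1 ∈ SS E C → False := fun h => noadj H hi h
  rcases inv_right H P hi hg with hR | ⟨-, hR1, hR2⟩
  · rcases inv_left H P hi2 hg with hL | ⟨i', hi', -, hL1, hL2⟩
    · left
      refine ⟨hR, hL, ?_⟩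
      intro hxx
      apply hno
      refine ⟨g, hg, ?_, ?_⟩
      · show E (g (i + 1)) (g (i + 2))
        rw [hR]; exact oth_edge H P hi hm
      · show g (i + 3) = g (i + 1)
        exact hxx.symm
    · right; left
      have : i' = i := by omega
      subst this
      refine ⟨hR, hL1, ?_⟩
      intro hyx
      have h1 : g (i' + 2) = g (i' + 2 + 1) := by rw [hR]; exact hyx
      refine H.r1 g hg (i' + 2) (g (i' + 1)) h1 ?_
      rw [hR]
      exact H.symm _ _ (oth_edge H P hi hm)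
  · rcases inv_left H P hi2 hg with hL | ⟨i', hi', -, hL1, hL2⟩
    · right; right
      refine ⟨hL, hR1, ?_⟩
      intro hxy
      have h1 : g (i + 1) = g (i + 1 + 1) := by rw [hxy]; exact hL.symm
      exact H.r1 g hg (i + 1) (oth s t i (g (i + 1))) h1 (oth_edge H P hi hm)
    · exfalso
      have : i' = i := by omega
      subst this
      have e1 : E (g (i' + 1)) (oth s t i' (g (i' + 1))) := oth_edge H P hi hm
      have e3 : E (g (i' + 1)) (g (i' + 2)) := by
        have hL1' : g (i' + 1) = oth s t (i' + 2) (g (i' + 2 + 1)) := hL1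
        rw [hL1']; exact hL2
      exact H.tri _ _ _ e1 hR2 e3

/-- An admissible assignment of centre letters. -/
def Valid (E : A → A → Prop) (C : Set (ℕ → A)) (s t z : ℕ → A) : Prop :=
  ∀ i ∈ SS E C, (z i = s i ∨ z i = t i) ∧ (i + 2 ∈ SS E C → z i ≠ z (i + 2))

/-- The centres at which a word disagrees with an assignment. -/
def Dis (E : A → A → Prop) (C : Set (ℕ → A)) (g z : ℕ → A) : Set ℕ :=
  {i | i ∈ SS E C ∧ g (i + 1) ≠ z i}

lemma valid_centers {g : ℕ → A} (hg : g ∈ C) : Valid E C s t (fun i => g (i + 1)) := by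
  intro i hi
  refine ⟨center_mem P hi hg, fun hi2 => ?_⟩
  show g (i + 1) ≠ g (i + 3)
  rcases three H P hi hi2 hg with ⟨-, -, h⟩ | ⟨-, h1, -⟩ | ⟨-, h1, -⟩
  · exact h
  · have hm' : g (i + 3) = s (i + 2) ∨ g (i + 3) = t (i + 2) := center_mem P hi2 hg
    rw [h1]
    exact oth_ne H P hi2 hm'
  · rw [h1]
    exact (oth_ne H P hi (center_mem P hi hg)).symm

/-- blocked by the right neighbour -/
def RB (E : A → A → Prop) (C : Set (ℕ → A)) (s t : ℕ → A) (g : ℕ → A) (i : ℕ) : Prop :=
  i + 2 ∈ SS E C ∧ g (i + 3) = oth s t i (g (i + 1))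

/-- blocked by the left neighbour -/
def LB (E : A → A → Prop) (C : Set (ℕ → A)) (s t : ℕ → A) (g : ℕ → A) (i : ℕ) : Prop :=
  ∃ i', i = i' + 2 ∧ i' ∈ SS E C ∧ g (i' + 1) = oth s t i (g (i + 1))

lemma avail_of {g : ℕ → A} (hg : g ∈ C) {i : ℕ} (hi : i ∈ SS E C)
    (hr : ¬ RB E C s t g i) (hl : ¬ LB E C s t g i) :
    Avail E g i ∧ g i = oth s t i (g (i + 1)) := by
  have h1 : g i = oth s t i (g (i + 1)) := by
    rcases inv_left H P hi hg with h | ⟨i', a, b, c, -⟩
    · exact h
    · exact absurd ⟨i', a, b, c⟩ hl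
  have h2 : g (i + 2) = oth s t i (g (i + 1)) := by
    rcases inv_right H P hi hg with h | ⟨a, b, -⟩
    · exact h
    · exact absurd ⟨a, b⟩ hr
  refine ⟨⟨?_, by rw [h1, h2]⟩, h1⟩
  rw [h1]
  exact H.symm _ _ (oth_edge H P hi (center_mem P hi hg))

lemma not_lb_of_rb {g : ℕ → A} (hg : g ∈ C) {i : ℕ} (hi : i ∈ SS E C)
    (hr : RB E C s t g i) : ¬ LB E C s t g (i + 2) := by
  obtain ⟨hi2, hr⟩ := hr
  rintro ⟨i', h1, -, h3⟩
  have : i' = i := by omega
  subst this
  have h3' : g (i' + 1) = oth s t (i' + 2) (g (i' + 3)) := h3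
  rcases three H P hi hi2 hg with ⟨a, b, -⟩ | ⟨-, -, c⟩ | ⟨-, -, c⟩
  · have hm' : g (i' + 3) = s (i' + 2) ∨ g (i' + 3) = t (i' + 2) := center_mem P hi2 hg
    rw [a, ← hr] at b
    exact oth_ne H P hi2 hm' b.symm
  · exact c hr.symm
  · exact c h3'

/-- If a word of the class disagrees with an admissible assignment then some move towards the
assignment is available. -/
lemma exists_move (hfin : (SS E C).Finite) {g z : ℕ → A} (hg : g ∈ C) (hz : Valid E C s t z)
    (hne : (Dis E C g z).Nonempty) :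
    ∃ i ∈ Dis E C g z, Avail E g i ∧ g i = z i := by
  have hDfin : (Dis E C g z).Finite := hfin.subset (fun i hi => hi.1)
  have hz' : ∀ i ∈ Dis E C g z, z i = oth s t i (g (i + 1)) := fun i hi =>
    eq_oth_of_ne H P hi.1 (center_mem P hi.1 hg) (hz i hi.1).1 hi.2
  -- a right-blocked centre of disagreement has its right neighbour in disagreement
  have hright : ∀ i ∈ Dis E C g z, RB E C s t g i → i + 2 ∈ Dis E C g z := by
    intro i hi hr
    refine ⟨hr.1, ?_⟩
    have h1 : z i ≠ z (i + 2) := (hz i hi.1).2 hr.1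
    rw [hz' i hi, ← hr.2] at h1
    exact h1
  have hleft : ∀ i ∈ Dis E C g z, LB E C s t g i →
      ∃ i', i = i' + 2 ∧ i' ∈ Dis E C g z ∧ ¬ RB E C s t g i' := by
    rintro i hi ⟨i', rfl, hi', h3⟩
    refine ⟨i', rfl, ⟨hi', ?_⟩, ?_⟩
    · have h1 : z i' ≠ z (i' + 2) := (hz i' hi').2 hi.1
      rw [hz' _ hi, ← h3] at h1
      exact h1.symm
    · intro hr
      exact not_lb_of_rb H P hg hi' hr ⟨i', rfl, hi', h3⟩
  -- the largest centre of disagreement is not right-blocked
  obtain ⟨m, hm, hmax⟩ := Set.exists_max_image (Dis E C g z) id hDfin hne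
  have hmr : ¬ RB E C s t g m := by
    intro hr
    have := hmax _ (hright m hm hr)
    simp at this
  have hne' : ({i | i ∈ Dis E C g z ∧ ¬ RB E C s t g i} : Set ℕ).Nonempty := ⟨m, hm, hmr⟩
  obtain ⟨i, ⟨hi, hir⟩, himin⟩ := Set.exists_min_image _ id
    (hDfin.subset (fun i (hi : i ∈ Dis E C g z ∧ ¬ RB E C s t g i) => hi.1)) hne'
  have hil : ¬ LB E C s t g i := by
    intro hl
    obtain ⟨i', rfl, h1, h2⟩ := hleft i hi hl
    have := himin i' ⟨h1, h2⟩
    simp at this
  obtain ⟨h1, h2⟩ := avail_of H P hg hi.1 hir hil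
  exact ⟨i, hi, h1, by rw [h2, hz' i hi]⟩

omit P in
lemma center_flip {g : ℕ → A} (hg : g ∈ C) {k : ℕ} (hk : Avail E g k) {j : ℕ}
    (hj : j ∈ SS E C) (hjk : j ≠ k) : flip3 g k (j + 1) = g (j + 1) := by
  have hkS : k ∈ SS E C := ⟨g, hg, hk⟩
  have h1 : j + 1 ≠ k := by rintro rfl; exact noadj H hj hkS
  have h2 : j ≠ k + 1 := by rintro rfl; exact noadj H hkS hj
  rcases Nat.lt_or_ge (j + 1) k with h | h
  · exact flip3_lt _ h
  · exact flip3_gt _ (by omega)

lemma dis_flip {g z : ℕ → A} (hg : g ∈ C) {k : ℕ} (hk : Avail E g k) :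
    Dis E C g z ⊆ insert k (Dis E C (flip3 g k) z) := by
  intro j hj
  by_cases hjk : j = k
  · exact Or.inl hjk
  · refine Or.inr ⟨hj.1, ?_⟩
    rw [center_flip H hg hk hj.1 hjk]
    exact hj.2

lemma dis_flip_eq {g z : ℕ → A} (hg : g ∈ C) {k : ℕ} (hk : Avail E g k) (hkz : g k = z k) :
    Dis E C (flip3 g k) z = Dis E C g z \ {k} := by
  ext j
  constructor
  · rintro ⟨h1, h2⟩
    by_cases hjk : j = k
    · subst hjk
      rw [flip3_at1] at h2
      exact absurd hkz h2
    · rw [center_flip H hg hk h1 hjk] at h2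
      exact ⟨⟨h1, h2⟩, hjk⟩
  · rintro ⟨⟨h1, h2⟩, h3⟩
    refine ⟨h1, ?_⟩
    rw [center_flip H hg hk h1 h3]
    exact h2

lemma exists_run (hfin : (SS E C).Finite) (n : ℕ) : ∀ {g z : ℕ → A}, g ∈ C → Valid E C s t z →
    (Dis E C g z).ncard = n →
    ∃ l : List ℕ, Ok E g l ∧ l.length = n ∧ ∀ i ∈ SS E C, run g l (i + 1) = z i := by
  induction n with
  | zero =>
    intro g z hg hz hn
    have hDfin : (Dis E C g z).Finite := hfin.subset (fun i hi => hi.1)
    have hemp : Dis E C g z = ∅ := (Set.ncard_eq_zero hDfin).1 hn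
    refine ⟨[], trivial, rfl, fun i hi => ?_⟩
    by_contra hne
    have : i ∈ Dis E C g z := ⟨hi, hne⟩
    rw [hemp] at this
    exact this
  | succ n ih =>
    intro g z hg hz hn
    have hDfin : (Dis E C g z).Finite := hfin.subset (fun i hi => hi.1)
    have hne : (Dis E C g z).Nonempty := by
      rw [Set.nonempty_iff_ne_empty]
      intro h
      rw [h] at hn
      simp at hn
    obtain ⟨i, hi, h1, h2⟩ := exists_move H P hfin hg hz hne
    have hn' : (Dis E C (flip3 g i) z).ncard = n := by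
      rw [dis_flip_eq H P hg h1 h2, Set.ncard_sdiff_singleton_of_mem hi, hn]
      simp
    obtain ⟨l, hl, hll, hlz⟩ := ih (H.closed g hg i h1) hz hn'
    exact ⟨i :: l, ⟨h1, hl⟩, by simp [hll], hlz⟩

lemma dis_le_length (hfin : (SS E C).Finite) {g z : ℕ → A} (hg : g ∈ C) {l : List ℕ}
    (hl : Ok E g l) (hz : ∀ i ∈ SS E C, run g l (i + 1) = z i) :
    (Dis E C g z).ncard ≤ l.length := by
  induction l generalizing g with
  | nil =>
    have : Dis E C g z = ∅ := by
      ext i
      constructor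
      · rintro ⟨h1, h2⟩
        exact absurd (hz i h1) h2
      · exact fun h => absurd h (Set.notMem_empty i)
    rw [this]; simp
  | cons k l ih =>
    have h1 := ih (H.closed g hg k hl.1) hl.2 hz
    have h2 : (Dis E C g z).ncard ≤ (insert k (Dis E C (flip3 g k) z)).ncard :=
      Set.ncard_le_ncard (dis_flip H P hg hl.1)
        ((hfin.subset (fun i hi => hi.1 : Dis E C (flip3 g k) z ⊆ SS E C)).insert k)
    have h3 := Set.ncard_insert_le k (Dis E C (flip3 g k) z)
    simp only [List.length_cons]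
    omega

/-- The centre letters determine the word. -/
lemma eq_of_centers {g g' : ℕ → A} (hg : g ∈ C) (hg' : g' ∈ C)
    (h : ∀ i ∈ SS E C, g (i + 1) = g' (i + 1)) : g = g' := by
  -- the right end of a shadow
  have key : ∀ i ∈ SS E C, g (i + 2) = g' (i + 2) := by
    intro i hi
    have hx := h i hi
    rcases inv_right H P hi hg with a | ⟨a, b, -⟩
    · rcases inv_right H P hi hg' with a' | ⟨a', b', -⟩
      · rw [a, a', hx]
      · exfalso
        have hx2 : g (i + 3) = g' (i + 3) := h (i + 2) a'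
        have h3 : g (i + 2) = g (i + 2 + 1) := by
          rw [a]
          show _ = g (i + 3)
          rw [hx2, b', hx]
        refine H.r1 g hg (i + 2) (g (i + 1)) h3 ?_
        rw [a]
        exact H.symm _ _ (oth_edge H P hi (center_mem P hi hg))
    · have hx2 : g (i + 3) = g' (i + 3) := h (i + 2) a
      have b' : g' (i + 3) = oth s t i (g' (i + 1)) := by rw [← hx2, ← hx]; exact b
      have c1 : g (i + 2) = oth s t (i + 2) (g (i + 3)) := by
        rcases inv_left H P a hg with c | ⟨i', c1, c2, c3, -⟩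
        · exact c
        · exact absurd ⟨i', c1, c2, c3⟩ (not_lb_of_rb H P hg hi ⟨a, b⟩)
      have c2 : g' (i + 2) = oth s t (i + 2) (g' (i + 3)) := by
        rcases inv_left H P a hg' with c | ⟨i', c1, c2, c3, -⟩
        · exact c
        · exact absurd ⟨i', c1, c2, c3⟩ (not_lb_of_rb H P hg' hi ⟨a, b'⟩)
      rw [c1, c2, hx2]
  funext p
  by_cases h1 : ∃ i ∈ SS E C, p = i + 1
  · obtain ⟨i, hi, rfl⟩ := h1
    exact h i hi
  by_cases h2 : ∃ i ∈ SS E C, p = i + 2
  · obtain ⟨i, hi, rfl⟩ := h2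
    exact key i hi
  by_cases h3 : p ∈ SS E C
  · rcases inv_left H P h3 hg with a | ⟨i', a1, a2, -⟩
    · rcases inv_left H P h3 hg' with a' | ⟨i', a1, a2, -⟩
      · rw [a, a', h p h3]
      · exact absurd ⟨i', a2, a1⟩ h2
    · exact absurd ⟨i', a2, a1⟩ h2
  · -- the position `p` is never touched
    obtain ⟨l, hl, rfl⟩ := H.conn g hg g' hg'
    have : ∀ (l : List ℕ) (f : ℕ → A), f ∈ C → Ok E f l → run f l p = f p := by
      intro l
      induction l with
      | nil => intro f _ _; rfl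
      | cons k l ih =>
        intro f hf hl
        show run (flip3 f k) l p = f p
        rw [ih _ (H.closed f hf k hl.1) hl.2]
        have hkS : k ∈ SS E C := ⟨f, hf, hl.1⟩
        have e1 : p ≠ k := by rintro rfl; exact h3 hkS
        have e2 : p ≠ k + 1 := fun e => h1 ⟨k, hkS, e⟩
        have e3 : p ≠ k + 2 := fun e => h2 ⟨k, hkS, e⟩
        unfold flip3
        rw [if_neg e1, if_neg e2, if_neg e3]
    exact (this l g hg hl).symm

/-- Overlapping centres have a common letter. -/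
lemma common {i : ℕ} (hi : i ∈ SS E C) (hi2 : i + 2 ∈ SS E C) {x : A}
    (hx : x = s i ∨ x = t i) (hx2 : ¬ (x = s (i + 2) ∨ x = t (i + 2))) :
    oth s t i x = s (i + 2) ∨ oth s t i x = t (i + 2) := by
  have hi' := hi
  obtain ⟨g, hg, -⟩ := hi'
  have hm := center_mem P hi hg
  have hm' : g (i + 3) = s (i + 2) ∨ g (i + 3) = t (i + 2) := center_mem P hi2 hg
  -- a letter of the pair at `i` which lies in the pair at `i + 2`
  obtain ⟨c, hc, hc2⟩ : ∃ c, (c = s i ∨ c = t i) ∧ (c = s (i + 2) ∨ c = t (i + 2)) := by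
    rcases three H P hi hi2 hg with ⟨a, b, -⟩ | ⟨-, b, -⟩ | ⟨-, b, -⟩
    · refine ⟨g (i + 2), ?_, ?_⟩
      · rw [a]; exact oth_mem H P hi hm
      · rw [b]; exact oth_mem H P hi2 hm'
    · refine ⟨g (i + 1), hm, ?_⟩
      rw [b]; exact oth_mem H P hi2 hm'
    · refine ⟨g (i + 3), ?_, hm'⟩
      rw [b]; exact oth_mem H P hi hm
  have hne : x ≠ c := by rintro rfl; exact hx2 hc2
  rw [← eq_oth_of_ne H P hi hx hc hne]
  exact hc2

/-- Two complementary admissible assignments. -/
lemma exists_antipodal : ∃ z z' : ℕ → A, Valid E C s t z ∧ Valid E C s t z' ∧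
    ∀ i ∈ SS E C, z i ≠ z' i := by
  classical
  let z : ℕ → A := fun n => Nat.strongRec (motive := fun _ => A) (fun n ih =>
    if h : 2 ≤ n then
      (if n - 2 ∈ SS E C then
        (if ih (n - 2) (by omega) = s n ∨ ih (n - 2) (by omega) = t n then
          oth s t n (ih (n - 2) (by omega)) else oth s t (n - 2) (ih (n - 2) (by omega)))
      else s n)
    else s n) n
  have hz0 : ∀ n, ¬ (2 ≤ n ∧ n - 2 ∈ SS E C) → z n = s n := by
    intro n hn
    simp only [z]
    rw [Nat.strongRec]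
    by_cases h : 2 ≤ n
    · have : n - 2 ∉ SS E C := fun h' => hn ⟨h, h'⟩
      simp [h, this]
    · simp [h]
  have hz2 : ∀ i, i ∈ SS E C → z (i + 2) =
      if z i = s (i + 2) ∨ z i = t (i + 2) then oth s t (i + 2) (z i) else oth s t i (z i) := by
    intro i hi
    simp only [z]
    rw [Nat.strongRec]
    simp only [Nat.add_sub_cancel, hi, if_true, dif_pos (show 2 ≤ i + 2 by omega)]
  have hmem : ∀ n, n ∈ SS E C → (z n = s n ∨ z n = t n) := by
    intro n
    induction n using Nat.strong_induction_on with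
    | _ n ih =>
      intro hn
      by_cases h : 2 ≤ n ∧ n - 2 ∈ SS E C
      · obtain ⟨i, rfl⟩ : ∃ i, n = i + 2 := ⟨n - 2, by omega⟩
        have hi : i ∈ SS E C := by simpa using h.2
        have him := ih i (by omega) hi
        rw [hz2 i hi]
        split_ifs with hc
        · exact oth_mem H P hn hc
        · exact common H P hi hn him hc
      · rw [hz0 n h]; exact Or.inl rfl
  refine ⟨z, fun i => oth s t i (z i), ?_, ?_, ?_⟩
  · intro i hi
    refine ⟨hmem i hi, fun hi2 => ?_⟩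
    rw [hz2 i hi]
    split_ifs with hc
    · exact (oth_ne H P hi2 hc).symm
    · exact (oth_ne H P hi (hmem i hi)).symm
  · intro i hi
    refine ⟨oth_mem H P hi (hmem i hi), fun hi2 => ?_⟩
    show oth s t i (z i) ≠ oth s t (i + 2) (z (i + 2))
    rw [hz2 i hi]
    split_ifs with hc
    · rw [oth_oth H P hi2 hc]
      exact oth_ne H P hi (hmem i hi)
    · exact (oth_ne H P hi2 (common H P hi hi2 (hmem i hi) hc)).symm
  · intro i hi
    exact (oth_ne H P hi (hmem i hi)).symm

end structure_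

end Pool.Agent.MP_de0ecf_co
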